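import Pool.Agent.Helper2.Arb.Coeff
import Pool.Agent.Helper60.FF.Exists

/-!
# MP_ea8a26_gt: Q1 for all positive arborescent (Conway-algebraic) diagrams

Oriented link diagrams are words of events (maxima, minima, crossings) read from top to bottom, see `Pool.Agent.Helper2.Arb.Diagram`.  `IsConway nab`: the
function `nab` on diagrams is invariant under planar isotopy and the three Reidemeister moves, has the value `1` on the circle and satisfies the skein
relation.  Such a function exists (`Pool.Agent.Helper60.FF.exists_isConway`), and its value on the diagrams below is unique.  `PT a b c d` is the type of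
the positive algebraic tangle diagrams whose ends north-west, north-east, south-west, south-east have the directions `a, b, c, d` (`true` = downwards): all
diagrams obtained from positive crossings and crossingless tangles (two vertical or two horizontal strands) by the horizontal sum of tangles and the
rotation by a quarter turn.  `K.closure` joins the two upper and the two lower ends of `K`.

Proof.  Put `τ = z⁻²` and `s = σ / z`.  A tangle with parallel ends is `z^m (α(τ) + β(τ) s)` in every context, a tangle with alternating ends is
`z^m (γ(τ) e + δ(τ) z⁻¹ e')` for the two smoothings `e, e'`.  Sum and rotation give a recursion for these pairs of polynomials with non-negative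
coefficients.  Write `f ≤ g` if the quotients `g_i / f_i` increase.  The invariant is `δ ≤ γ ≤ τ δ` for alternating ends and `β ≤ 2 α + β ≤ τ β` for parallel
ends (or one of the two polynomials is `0` and the other one log-concave, if there are crossingless tangles); it makes `β, γ, δ` log-concave, although `α` need
not be log-concave.  The only non-linear step, for two tangles composed in their common direction, is the discrete form of Efron's monotonicity theorem
(`efron`).
-/

set_option autoImplicit false

namespace Pool.Agent.Results.MP_ea8a26_gt.Arborescent

open Polynomial Pool.Agent.Helper2.Arb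

theorem result :
    (∃ nab : Word → ℤ[X], IsConway nab) ∧
    ∀ {a c : Bool} (K : PT a (!a) c (!c)), Closed K.closure ∧ ∀ nab : Word → ℤ[X], IsConway nab →
      (K.NoVert → nab K.closure ≠ 0) ∧ (∀ j, 0 ≤ (nab K.closure).coeff j) ∧
      (∃ n : ℕ, ∀ j : ℕ, (nab K.closure).coeff j ≠ 0 → j % 2 = n % 2) ∧
      (∀ i j : ℕ, i ≤ j → (nab K.closure).coeff i * (nab K.closure).coeff (j + 2) ≤
        (nab K.closure).coeff (i + 2) * (nab K.closure).coeff j) ∧
      (∀ (n : ℕ) (k : ℤ), coeffX (nab K.closure) n (k + 1) * coeffX (nab K.closure) n (k - 1) ≤
        coeffX (nab K.closure) n k ^ 2) ∧
      ∀ nab' : Word → ℤ[X], IsConway nab' → nab' K.closure = nab K.closure :=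
  ⟨Pool.Agent.Helper60.FF.exists_isConway, fun K => ⟨closed_closure K, fun nab hn => final K nab hn⟩⟩

end Pool.Agent.Results.MP_ea8a26_gt.Arborescent
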