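import Pool.Agent.Helper43.PD.Plane
import Pool.Agent.Helper60.PD.Full
import Pool.Agent.Helper2.V8C.Num

/-!
# MP_ea8a26_gt: a local criterion for the zeros of the Conway polynomial and the inequality of Q1

A diagram without signs is a shadow `G : Sh P` (`Helper85.EV2.Exp`): `P` is the finite set of the passages of the link through the crossings, `nxt i` the next passage along the link, `op i`
the other passage of the same crossing, and `lf i = true` if the other strand crosses from the left to the right, seen in the direction of travel. The edge `i` goes from the passage `i` to the
passage `nxt i`. `Face G` (`Helper2.PD.Faces`) are the faces: the classes of the sides of the edges under turning left at every crossing. `Plane G` (`Helper43.PD.Plane`): every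
passage belongs to a crossing, `G` is connected, and the number of faces is the number of crossings plus two, so that `G` is a connected diagram in the sphere. `Dg G` are the diagrams on `G`,
each crossing positive, negative or smoothed; `allPos G` is the positive one. `Cs nab` (`Helper60.EV2.Exist`): `nab` has the properties of the Conway polynomial on these diagrams; there is
exactly one such `nab`. `Twist G A m` (`Helper61.TW.Defs`): the crossings are divided into antiparallel regions, one for each `a ∈ A`; the region of `a` has `m a ≥ 1` crossings, its one strand
runs through the passages `a, nxt a, nxt (nxt a), ...`, its other strand runs through the same crossings in the opposite order, and `lf` alternates, so that two consecutive crossings bound a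
bigon with antiparallel sides. A single crossing is a region with `m a = 1`, so every diagram has such a division. The Seifert circles are the cycles of `seifert G` on the edges; those at the
two ends of the region of `a` contain the edges `op a` and `nxt^[m a - 1] a`, which leave the first and the last crossing to the outside. `Bigons G I` (`Helper2.V8B.Def`): `I` is a set of
bigons with parallel sides, each given by its two edges. `Sep G A m I` (`Helper2.V8C.Main`): the crossings of the regions with at least two crossings lie in no bigon of `I`. The crossings which
are joined by bigons of `I` form a row; `side G I true p` and `side G I false p` are the numbers of rows on the two sides of the Seifert circle of the edge `p` (every row is counted at its last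
crossing, a crossing in no bigon of `I` is a row), `total G I p` is their sum.

Proof. At a zero `s⁻¹ - s` of `∇` there are numbers `c` on the faces, zero on the two faces of one edge, with `N + s² S = s (W + E)` at every crossing. The jump `|N - S|` is the same at all
crossings of an antiparallel region, and in a row the values are given by a recursion, so that the row pays for one crossing (the sum of the squares of its jumps and of a second form is bounded
from below). Two quadratic identities bound the sum of the squares of all jumps by the areas and the couplings of the closed polygons of the values of `c` along the Seifert circles, which are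
bounded by the squares of the jumps (isoperimetric inequality for the polygon with one vertex for each row); the circles inside a region have two crossings, so that area and coupling are zero,
and all `m` crossings of a region pay for its two end circles.
-/

set_option autoImplicit false

namespace Pool.Agent.Results.MP_ea8a26_gt.LocalSector

open Polynomial Pool.Agent.Helper85.Exp Pool.Agent.Helper60.EV2 Pool.Agent.Helper43.Pln Pool.Agent.Helper2.V8B Pool.Agent.Helper61.TW
  Pool.Agent.Helper2.V8C

variable {P : Type} {G : Sh P} {I : P → Prop}

theorem weight_le {α : ℝ} (h0 : 0 ≤ α) (p : P) :
    weight α G I p ≤ α * (total G I p / (2 * Real.pi)) + (1 - α) * (√(side G I true p * side G I false p) / 4) := by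
  have h := mul_le_mul_of_nonneg_left (cot_le (total G I p)) h0
  have e : α * (Real.cot (Real.pi / total G I p) / 2) ≤ α * (total G I p / (2 * Real.pi)) := by
    have h2 : α * (total G I p / (2 * Real.pi)) = α * (total G I p / Real.pi) / 2 := by ring
    rw [h2]
    linarith
  unfold weight
  linarith

/-- **Main theorem.** On the diagrams of every connected shadow in the sphere there is exactly one Conway polynomial. Let the crossings of a connected shadow in the sphere be divided into
antiparallel twist regions with `m a ≥ 1` crossings, let `I` be a set of bigons with parallel sides at crossings outside the regions with at least two crossings, and for a Seifert circle let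
`n` be the number of rows of crossings on it, `l` and `r` the numbers of those on its left and on its right side. If there is a real number `0 ≤ α ≤ 1` such that for every region, with the
Seifert circles at its two ends, `α (n + n') / (2 π) + (1 - α) (√(l r) + √(l' r')) / 4 ≤ (5 / 3 + 9 α / 10) m a` (for `α = 1`, `n + n' ≤ 16 m a` suffices, for `α = 0`, `l r, l' r' ≤ 11 (m a)²`),
then all complex zeros `z` of the Conway polynomial of the positive diagram satisfy `3 (Re z)² ≤ (Im z)²`, and the inequality of Q1 holds for all integers `k`. -/
theorem result :
    (∀ (P : Type) [Fintype P] (G : Sh P), Plane G → ∃! nab : Dg G → ℤ[X], Cs nab) ∧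
    ∀ (P : Type) [Fintype P] (G : Sh P) (A : Finset P) (m : P → ℕ) (I : P → Prop) (α : ℝ), Plane G → Twist G A m → Bigons G I → Sep G A m I → 0 ≤ α → α ≤ 1 →
      (∀ a ∈ A, α * ((total G I (G.op a) + total G I (G.nxt^[m a - 1] a)) / (2 * Real.pi)) +
          (1 - α) * ((√(side G I true (G.op a) * side G I false (G.op a)) +
            √(side G I true (G.nxt^[m a - 1] a) * side G I false (G.nxt^[m a - 1] a))) / 4) ≤ (5 / 3 + 9 / 10 * α) * m a) →
      ∀ nab : Dg G → ℤ[X], Cs nab → (∀ z : ℂ, aeval z (nab (allPos G)) = 0 → 3 * z.re ^ 2 ≤ z.im ^ 2) ∧ LogConcave G nab := by
  refine ⟨fun P _ G h => ?_, fun P _ G A m I α hG hT hI hS h0 h1 h nab hn => ?_⟩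
  · have := nonempty_of h
    exact Pool.Agent.Helper60.PD.exists_unique_nab h.conn h.cross h.genus
  have hs : 5 / 3 ≤ √3 := Real.le_sqrt_of_sq_le (by norm_num)
  have key : ∀ a ∈ A, weight α G I (G.op a) + weight α G I (G.nxt^[m a - 1] a) ≤ (5 / 3 + 9 / 10 * α) * m a := by
    intro a ha
    have h2 := weight_le (G := G) (I := I) h0 (G.op a)
    have h3 := weight_le (G := G) (I := I) h0 (G.nxt^[m a - 1] a)
    refine le_trans (add_le_add h2 h3) (le_trans (le_of_eq ?_) (h a ha))
    ring
  refine local_RI hG h0 h1 hI hT hS (fun a ha hm p hp _ => ?_) (fun a ha _ => ?_) hn
  · have h4 := key a ha
    rw [hm] at h4
    simp only [Nat.sub_self, Function.iterate_zero_apply, Nat.cast_one, mul_one] at h4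
    have h5 : weight α G I p + weight α G I (G.op p) ≤ 5 / 3 + 9 / 10 * α := by
      rcases hp with rfl | rfl
      · linarith
      · rw [G.op_op]
        exact h4
    exact ⟨by linarith, fun _ => by linarith⟩
  · have h4 := key a ha
    have h5 : (0 : ℝ) ≤ m a := Nat.cast_nonneg _
    nlinarith

end Pool.Agent.Results.MP_ea8a26_gt.LocalSector
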