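import Mathlib
import Pool.Agent.Helper60.Burau.Family
import Pool.Agent.Helper89.CX.Free

/-!
# MP_ea8a26_gt: log-concavity of the Conway polynomial of Lorenz links and Coxeter links

`V_{r,s} = σ_{r-1} ⋯ σ_2 σ_1 σ_1 σ_2 ⋯ σ_{s-1}`, `r ≤ s`, is the braid in which the strand `r` goes
round all the strands on its left and then to the right to the place `s`. `V_{1,s}` is
`T_s = σ_1 σ_2 ⋯ σ_{s-1}` and `V_{r,r}` is the Jucys-Murphy braid `J_r`.

By a theorem of Birman and Kofman the Lorenz links are the closures of the braids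
`T_{r_1}^{s_1} T_{r_2}^{s_2} ⋯ T_{r_k}^{s_k}` with `r_1 < r_2 < ⋯ < r_k` (T-links). The Coxeter links
are the closures of the braids `σ_1 ⋯ σ_n J_1^{a_1} ⋯ J_{n+1}^{a_{n+1}}`, `a_i ≥ 0`. Here we treat all
products of braids `V_{r,s}` in any order.

The Conway polynomial is taken as a function on braids: a family `∇ n : Braid n → ℤ[X]`
(`Braid n` is the braid group on `n + 1` strands) that is invariant under conjugation and
stabilisation, satisfies the skein relation and is `1` on the trivial one-strand braid. There is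
exactly one such family (`existsUnique_conway`); by the theorems of Alexander and Markov it is the
Conway polynomial of the closure.
-/

set_option autoImplicit false

namespace Pool.Agent.Results.MP_ea8a26_gt.LorenzCoxeterLinks

open Polynomial Pool.Agent.Helper76.Conway Pool.Agent.Helper76.Conway.Top

/-- Artin's relations for the braid group on `n + 1` strands; generators are indexed by `Fin n`. -/
def artinRels (n : ℕ) : Set (FreeGroup (Fin n)) :=
  {r | ∃ i j : Fin n, (i : ℕ) + 1 = (j : ℕ) ∧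
      r = FreeGroup.of i * FreeGroup.of j * FreeGroup.of i *
        (FreeGroup.of j * FreeGroup.of i * FreeGroup.of j)⁻¹} ∪
  {r | ∃ i j : Fin n, (i : ℕ) + 2 ≤ (j : ℕ) ∧
      r = FreeGroup.of i * FreeGroup.of j * (FreeGroup.of j * FreeGroup.of i)⁻¹}

/-- The braid group on `n + 1` strands. -/
abbrev Braid (n : ℕ) : Type := PresentedGroup (artinRels n)

/-- The Artin generators: a single crossing between strands `i` and `i + 1`. -/
def σ {n : ℕ} (i : Fin n) : Braid n := PresentedGroup.of i

theorem σ_braid {n : ℕ} {i j : Fin n} (h : (i : ℕ) + 1 = (j : ℕ)) :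
    (σ i * σ j * σ i : Braid n) = σ j * σ i * σ j :=
  PresentedGroup.mk_eq_mk_of_mul_inv_mem (rels := artinRels n)
    (x := FreeGroup.of i * FreeGroup.of j * FreeGroup.of i)
    (y := FreeGroup.of j * FreeGroup.of i * FreeGroup.of j) (Or.inl ⟨i, j, h, rfl⟩)

theorem σ_comm {n : ℕ} {i j : Fin n} (h : (i : ℕ) + 2 ≤ (j : ℕ)) :
    (σ i * σ j : Braid n) = σ j * σ i :=
  PresentedGroup.mk_eq_mk_of_mul_inv_mem (rels := artinRels n)
    (x := FreeGroup.of i * FreeGroup.of j)
    (y := FreeGroup.of j * FreeGroup.of i) (Or.inr ⟨i, j, h, rfl⟩)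

/-- Adding one strand on the right. -/
def incl (n : ℕ) : Braid n →* Braid (n + 1) :=
  PresentedGroup.toGroup (f := fun i : Fin n => (σ i.castSucc : Braid (n + 1))) (by
    rintro r (⟨i, j, h, rfl⟩ | ⟨i, j, h, rfl⟩)
    · simp only [map_mul, map_inv, FreeGroup.lift_apply_of]
      rw [mul_inv_eq_one]
      exact σ_braid (by simpa using h)
    · simp only [map_mul, map_inv, FreeGroup.lift_apply_of]
      rw [mul_inv_eq_one]
      exact σ_comm (by simpa using h))

/-- The permutation of the endpoints of the strands. -/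
def perm (n : ℕ) : Braid n →* Equiv.Perm (Fin (n + 1)) :=
  PresentedGroup.toGroup (f := fun i : Fin n => Equiv.swap i.castSucc i.succ) (by
    rintro r (⟨i, j, h, rfl⟩ | ⟨i, j, h, rfl⟩)
    · simp only [map_mul, map_inv, FreeGroup.lift_apply_of]
      rw [mul_inv_eq_one]
      have e : j.castSucc = i.succ := Fin.ext (by simpa using h.symm)
      have h1 : i.castSucc ≠ i.succ := Fin.ne_of_val_ne (by simp)
      have h2 : i.castSucc ≠ j.succ := Fin.ne_of_val_ne (by simp; omega)
      have h3 : j.succ ≠ i.succ := Fin.ne_of_val_ne (by simp; omega)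
      rw [e, Equiv.swap_mul_swap_mul_swap h1 h2]
      rw [Equiv.swap_comm i.castSucc i.succ, Equiv.swap_comm i.succ j.succ,
        Equiv.swap_mul_swap_mul_swap h3 h2.symm, Equiv.swap_comm]
    · simp only [map_mul, map_inv, FreeGroup.lift_apply_of]
      rw [mul_inv_eq_one]
      apply Equiv.Perm.Disjoint.commute
      rw [Equiv.Perm.disjoint_iff_disjoint_support]
      rw [Equiv.Perm.support_swap, Equiv.Perm.support_swap]
      · simp only [Finset.disjoint_insert_right, Finset.disjoint_singleton_right,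
          Finset.mem_insert, Finset.mem_singleton, Fin.ext_iff, Fin.val_castSucc, Fin.val_succ]
        omega
      · exact Fin.ne_of_val_ne (by simp)
      · exact Fin.ne_of_val_ne (by simp))

/-- The number of components of the closure of a braid: the number of cycles (fixed points
included) of its permutation. -/
noncomputable def numComponents {n : ℕ} (β : Braid n) : ℕ :=
  Nat.card (Quotient (Equiv.Perm.SameCycle.setoid (perm n β)))

/-- The Conway polynomial as a function of braids. -/
structure IsConwayPolynomial (nabla : ∀ n, Braid n → ℤ[X]) : Prop where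
  /-- value on the unknot -/
  unknot : nabla 0 1 = 1
  /-- first Markov move -/
  conj : ∀ (n : ℕ) (a b : Braid n), nabla n (a * b) = nabla n (b * a)
  /-- second Markov move, positive stabilisation -/
  stab : ∀ (n : ℕ) (b : Braid n), nabla (n + 1) (incl n b * σ (Fin.last n)) = nabla n b
  /-- second Markov move, negative stabilisation -/
  stab_inv : ∀ (n : ℕ) (b : Braid n), nabla (n + 1) (incl n b * (σ (Fin.last n))⁻¹) = nabla n b
  /-- skein relation `∇(K₊) - ∇(K₋) = z ∇(K₀)` -/
  skein : ∀ (n : ℕ) (a b : Braid n) (i : Fin n),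
    nabla n (a * σ i * b) - nabla n (a * (σ i)⁻¹ * b) = X * nabla n (a * b)

/-- `V_{r,s} = σ_{r-1} ⋯ σ_2 σ_1 · σ_1 σ_2 ⋯ σ_{s-1}` (the generators are numbered from `0` in
`Fin n`), for `1 ≤ r ≤ n + 1` and `1 ≤ s ≤ n + 1`; in general `V_{r,s} = V_{r',s'}`, where `r'`, `s'`
are the numbers in `{1, …, n + 1}` nearest to `r`, `s`. -/
def Vrs (n r s : ℕ) : Braid n :=
  (((List.finRange n).take (r - 1)).reverse.map σ).prod *
    (((List.finRange n).take (s - 1)).map σ).prod

/-- The coefficient `a_k = c_{2k+m-1}` of the Laurent polynomial `t^{(1-m)/2} P(√t)`, where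
`P = ∑ c_j z^j` and `m` is the number of components. -/
noncomputable def coeffX (P : ℤ[X]) (m : ℕ) (k : ℤ) : ℤ :=
  if 0 ≤ 2 * k + m - 1 then P.coeff (2 * k + m - 1).toNat else 0

section proof

/-- generators indexed by natural numbers -/
def gen (n a : ℕ) : Braid n := if h : a < n then σ ⟨a, h⟩ else 1

theorem gen_of {n a : ℕ} (h : a < n) : gen n a = σ ⟨a, h⟩ := dif_pos h

theorem V_gen {n : ℕ} (w : List (Fin n)) : V (gen n) (w.map Fin.val) = (w.map σ).prod := by
  unfold V
  rw [List.map_map]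
  congr 1
  apply List.map_congr_left
  intro i _
  exact gen_of i.2

theorem incl_V {n : ℕ} {u : List ℕ} (hu : ∀ a ∈ u, a < n) :
    incl n (V (gen n) u) = V (gen (n + 1)) u := by
  induction u with
  | nil => exact map_one _
  | cons a u ih =>
    have ha := hu a (by simp)
    rw [V_cons, V_cons, map_mul, ih fun b hb => hu b (List.mem_cons_of_mem _ hb), gen_of ha,
      gen_of (Nat.lt_succ_of_lt ha)]
    congr 1

theorem mk {nabla : ∀ n, Braid n → ℤ[X]} (h : IsConwayPolynomial nabla) :
    Mk Braid gen nabla where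
  braid n j hj := by
    rw [gen_of hj, gen_of (Nat.lt_of_succ_lt hj)]
    exact σ_braid rfl
  comm n a b hab hb := by
    rw [gen_of hb, gen_of (by omega)]
    exact σ_comm hab
  one := h.unknot
  conj := h.conj
  skein n g i k hi := by
    rw [gen_of hi]
    exact h.skein n g k ⟨i, hi⟩
  stab n u hu := by
    rw [← incl_V hu, gen_of (Nat.lt_succ_self n)]
    exact h.stab n _
  stab_inv n u hu := by
    rw [← incl_V hu, gen_of (Nat.lt_succ_self n)]
    exact h.stab_inv n _

/-- There is exactly one Conway polynomial. -/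
theorem existsUnique_conway : ∃! nabla : ∀ n, Braid n → ℤ[X], IsConwayPolynomial nabla := by
  obtain ⟨nabla, h1, h2, h3, h4, h5⟩ := Pool.Agent.Helper60.Burau.exists_family (G := Braid)
    (fun _ i => σ i) incl
    (fun n i => PresentedGroup.toGroup.of _) (fun n => PresentedGroup.closure_range_of _) (by
      intro H _ n f hf1 hf2
      refine ⟨PresentedGroup.toGroup (f := f) ?_, fun i => PresentedGroup.toGroup.of _⟩
      rintro r (⟨i, j, h, rfl⟩ | ⟨i, j, h, rfl⟩)
      · simp only [map_mul, map_inv, FreeGroup.lift_apply_of]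
        rw [mul_inv_eq_one]
        exact hf1 i j h
      · simp only [map_mul, map_inv, FreeGroup.lift_apply_of]
        rw [mul_inv_eq_one]
        exact hf2 i j h)
  have h : IsConwayPolynomial nabla := ⟨h1, h2, h3, h4, h5⟩
  refine ⟨nabla, h, fun nabla' h' => Pool.Agent.Helper60.Burau.unique_family (mk h') (mk h)
    fun n => ?_⟩
  rw [eq_top_iff, ← PresentedGroup.closure_range_of (artinRels n), Subgroup.closure_le]
  rintro _ ⟨i, rfl⟩
  exact Subgroup.subset_closure ⟨i, i.2, gen_of i.2⟩

theorem take_eq {n r : ℕ} (hr : r ≤ n + 1) :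
    ((List.finRange n).take (r - 1)).map σ = (List.range (r - 1)).map (gen n) := by
  refine (List.ext_getElem ?_ ?_).symm
  · simp
    omega
  · intro i h1 h2
    simp only [List.length_map, List.length_range] at h1
    simp only [List.getElem_map, List.getElem_range, List.getElem_take, List.getElem_finRange]
    rw [gen_of (by omega)]
    rfl

theorem V_eq {n r s : ℕ} (hr : r ≤ n + 1) (hs : s ≤ n + 1) :
    Vrs n r s = V (gen n) (Pool.Agent.Helper89.CX.wv r s) := by
  unfold Vrs Pool.Agent.Helper89.CX.wv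
  rw [V_append, List.map_reverse, take_eq hr, take_eq hs, ← List.map_reverse]
  rfl

theorem take_min (n r : ℕ) :
    (List.finRange n).take (min r (n + 1) - 1) = (List.finRange n).take (r - 1) := by
  rcases le_total r (n + 1) with h | h
  · rw [min_eq_left h]
  · rw [min_eq_right h, List.take_of_length_le (by simp), List.take_of_length_le (by simp; omega)]

/-- the pair in `{1, …, n + 1}` -/
def cl (n : ℕ) (x : ℕ × ℕ) : ℕ × ℕ := (max (min x.1 (n + 1)) 1, max (min x.2 (n + 1)) 1)

theorem V_cl (n : ℕ) (x : ℕ × ℕ) : Vrs n (cl n x).1 (cl n x).2 = Vrs n x.1 x.2 := by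
  have e : ∀ r : ℕ, (List.finRange n).take (max (min r (n + 1)) 1 - 1) =
      (List.finRange n).take (r - 1) := by
    intro r
    rw [← take_min n r]
    congr 1
    omega
  unfold Vrs cl
  rw [e, e]

/-- the braid word of a list of pairs -/
abbrev wd (l : List (ℕ × ℕ)) : List ℕ := Pool.Agent.Helper89.CX.wdV l

theorem prod_V {n : ℕ} {l : List (ℕ × ℕ)} (hl : ∀ x ∈ l, x.1 ≤ n + 1 ∧ x.2 ≤ n + 1) :
    (l.map fun x => Vrs n x.1 x.2).prod = V (gen n) (wd l) := by
  induction l with
  | nil => rfl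
  | cons x l ih =>
    have e : wd (x :: l) = Pool.Agent.Helper89.CX.wv x.1 x.2 ++ wd l := rfl
    rw [List.map_cons, List.prod_cons, e, V_append, ih fun y hy => hl y (by simp [hy]),
      V_eq (hl x (by simp)).1 (hl x (by simp)).2]

theorem prod_V' (n : ℕ) (l : List (ℕ × ℕ)) (hl : ∀ x ∈ l, x.1 ≤ x.2) :
    ∃ l' : List (ℕ × ℕ), (∀ x ∈ l', 1 ≤ x.1 ∧ x.1 ≤ x.2 ∧ x.2 ≤ n + 1) ∧
      (l.map fun x => Vrs n x.1 x.2).prod = V (gen n) (wd l') := by
  have h1 : ∀ x ∈ l.map (cl n), 1 ≤ x.1 ∧ x.1 ≤ x.2 ∧ x.2 ≤ n + 1 := by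
    intro x hx
    obtain ⟨y, hy, rfl⟩ := List.mem_map.1 hx
    have := hl y hy
    unfold cl
    refine ⟨?_, ?_, ?_⟩ <;> simp only <;> omega
  refine ⟨l.map (cl n), h1, ?_⟩
  rw [← prod_V fun x hx => ⟨(h1 x hx).2.1.trans (h1 x hx).2.2, (h1 x hx).2.2⟩, List.map_map]
  congr 1
  exact List.map_congr_left fun x _ => (V_cl n x).symm

theorem wd_lt {n : ℕ} {A : List (ℕ × ℕ)} (hA : ∀ x ∈ A, 1 ≤ x.1 ∧ x.1 ≤ x.2 ∧ x.2 ≤ n + 1) :
    ∀ a ∈ wd A, a < n := by
  intro a ha
  unfold wd Pool.Agent.Helper89.CX.wdV at ha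
  obtain ⟨x, hx, hax⟩ := List.mem_flatMap.1 ha
  have h1 := hA x hx
  unfold Pool.Agent.Helper89.CX.wv at hax
  rcases List.mem_append.1 hax with h2 | h2
  · rw [List.mem_reverse, List.mem_range] at h2
    omega
  · rw [List.mem_range] at h2
    omega

theorem free {n : ℕ} {A : List (ℕ × ℕ)} (hA : ∀ x ∈ A, 1 ≤ x.1 ∧ x.1 ≤ x.2 ∧ x.2 ≤ n + 1)
    (hn : ∃ x ∈ A, x.2 = n + 1) : H52TW.FreeS n (wd A) := by
  obtain ⟨x, hx, hx2⟩ := hn
  exact Pool.Agent.Helper89.CX.freeS_V hA (hx2 ▸ List.mem_map_of_mem hx)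

theorem key {nabla : ∀ n, Braid n → ℤ[X]} (h : IsConwayPolynomial nabla) {n : ℕ} {A : List (ℕ × ℕ)}
    (hA : ∀ x ∈ A, 1 ≤ x.1 ∧ x.1 ≤ x.2 ∧ x.2 ≤ n + 1) :
    (∀ j : ℤ, cz (nabla n (V (gen n) (wd A))) (j + 2) * cz (nabla n (V (gen n) (wd A))) (j - 2) ≤
      cz (nabla n (V (gen n) (wd A))) j ^ 2) ∧
    (nabla n (V (gen n) (wd A)) ≠ 0 → ∀ z : ℂ, aeval z (nabla n (V (gen n) (wd A))) = 0 →
      3 * z.re ^ 2 ≤ z.im ^ 2) := by
  have hw : ∀ a ∈ wd A, a < n := wd_lt hA
  by_cases hn : ∃ x ∈ A, x.2 = n + 1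
  · obtain ⟨h1, h2⟩ := H52TW.main_of_freeS (mk h) hw (free hA hn)
    exact ⟨h1, fun _ => h2⟩
  · rcases Nat.eq_zero_or_pos n with h0 | h0
    · subst h0
      have e : wd A = [] := by
        cases hwA : wd A with
        | nil => rfl
        | cons a u => exact absurd (hw a (by rw [hwA]; simp)) (by omega)
      rw [e]
      have e1 : nabla 0 (V (gen 0) []) = 1 := h.unknot
      rw [e1]
      refine ⟨fun j => ?_, fun _ z hz => ?_⟩
      · have e2 : ∀ j : ℤ, cz (1 : ℤ[X]) j = if j = 0 then 1 else 0 := by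
          intro j
          unfold cz
          rw [coeff_one]
          split_ifs <;> first | rfl | omega
        rw [e2, e2, e2]
        split_ifs <;> omega
      · simp at hz
    · have hz : nabla n (V (gen n) (wd A)) = 0 := by
        refine (mk h).zero_of_missing n (wd A) hw (n - 1) (by omega) ?_
        intro hm
        unfold wd Pool.Agent.Helper89.CX.wdV at hm
        obtain ⟨x, hx, hx2⟩ := List.mem_flatMap.1 hm
        have h3 := hA x hx
        refine hn ⟨x, hx, ?_⟩
        unfold Pool.Agent.Helper89.CX.wv at hx2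
        rcases List.mem_append.1 hx2 with h4 | h4
        · rw [List.mem_reverse, List.mem_range] at h4
          omega
        · rw [List.mem_range] at h4
          omega
      rw [hz]
      refine ⟨fun j => ?_, fun h0 => absurd rfl h0⟩
      have e2 : ∀ j : ℤ, cz (0 : ℤ[X]) j = 0 := by
        intro j
        unfold cz
        split_ifs <;> simp
      rw [e2, e2, e2]
      simp

end proof

theorem main_result (nabla : ∀ n, Braid n → ℤ[X]) (h : IsConwayPolynomial nabla)
    (n : ℕ) (A : List (ℕ × ℕ)) (hA : ∀ x ∈ A, x.1 ≤ x.2) (β : Braid n)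
    (hβ : β = (A.map fun x => Vrs n x.1 x.2).prod) :
    (∀ k : ℤ, coeffX (nabla n β) (numComponents β) (k + 1) *
        coeffX (nabla n β) (numComponents β) (k - 1) ≤
          coeffX (nabla n β) (numComponents β) k ^ 2) ∧
      (nabla n β ≠ 0 → ∀ z : ℂ, aeval z (nabla n β) = 0 → 3 * z.re ^ 2 ≤ z.im ^ 2) := by
  obtain ⟨A', hA', e1⟩ := prod_V' n A hA
  rw [← hβ] at e1
  have key := key h hA'
  rw [← e1] at key
  refine ⟨fun k => ?_, key.2⟩
  have e : ∀ k : ℤ, coeffX (nabla n β) (numComponents β) k =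
      cz (nabla n β) (2 * k + numComponents β - 1) := fun k => rfl
  rw [e, e, e]
  have := key.1 (2 * k + numComponents β - 1)
  rw [show 2 * (k + 1) + (numComponents β : ℤ) - 1 = 2 * k + numComponents β - 1 + 2 by ring,
    show 2 * (k - 1) + (numComponents β : ℤ) - 1 = 2 * k + numComponents β - 1 - 2 by ring]
  exact this

/-- The Conway polynomial (of closures of braids) exists and is unique. Let `β` be a product, in any
order, of braids `V_{r,s} = σ_{r-1} ⋯ σ_1 σ_1 ⋯ σ_{s-1}` with `r ≤ s`. Then the Laurent polynomial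
`t^{(1-n(K))/2} ∇_K(√t)` of the closure `K` is log-concave; moreover every complex zero `z` of `∇_K`
(if `∇_K ≠ 0`) satisfies `3 (Re z)^2 ≤ (Im z)^2`, that is, `|arg(-z^2)| ≤ 60°` or `z = 0`. -/
theorem result : (∃! nabla : ∀ n, Braid n → ℤ[X], IsConwayPolynomial nabla) ∧
    ∀ nabla : ∀ n, Braid n → ℤ[X], IsConwayPolynomial nabla →
      ∀ (n : ℕ) (A : List (ℕ × ℕ)), (∀ x ∈ A, x.1 ≤ x.2) →
        ∀ β : Braid n, β = (A.map fun x => Vrs n x.1 x.2).prod →
        (∀ k : ℤ, coeffX (nabla n β) (numComponents β) (k + 1) *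
            coeffX (nabla n β) (numComponents β) (k - 1) ≤
              coeffX (nabla n β) (numComponents β) k ^ 2) ∧
          (nabla n β ≠ 0 → ∀ z : ℂ, aeval z (nabla n β) = 0 → 3 * z.re ^ 2 ≤ z.im ^ 2) :=
  ⟨existsUnique_conway, fun nabla h n A hA β hβ => main_result nabla h n A hA β hβ⟩

end Pool.Agent.Results.MP_ea8a26_gt.LorenzCoxeterLinks
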