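import Pool.Agent.Helper43.PD.Plane
import Pool.Agent.Helper60.PD.Full
import Pool.Agent.Helper43.GD.ExplB
import Pool.Agent.Helper60.S4.Asm

/-!
# MP_ea8a26_gt: Q1 for every positive diagram with polynomially many crossings in the number of Seifert circles

A diagram without signs is a shadow `G : Sh P` (`Helper85.EV2.Exp`): `P` is the finite set of the passages of the link through the crossings, `nxt i` the next passage along the link, `op i`
the other passage of the same crossing, and `lf i = true` if the other strand crosses from the left to the right, seen in the direction of travel. The edge `i` goes from the passage `i` to the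
passage `nxt i`. `Face G` (`Helper2.PD.Faces`) are the faces: the classes of the sides of the edges under turning left at every crossing. `Plane G` (`Helper43.PD.Plane`): every
passage belongs to a crossing, `G` is connected, and the number of faces is the number of crossings plus two, so that `G` is a connected diagram in the sphere. `Dg G` are the diagrams on `G`,
each crossing positive, negative or smoothed; `allPos G` is the positive one. `Cs nab` (`Helper60.EV2.Exist`): `nab` has the properties of the Conway polynomial on these diagrams; there is
exactly one such `nab`.

Proof. Put `z = s⁻¹ - s`. The matrix with a row `N + s² S - s (W + E)` for every crossing (its four faces) and a column for every face except the two faces of one edge has, up to a power of `s`,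
the determinant `± ∇(z)`. More generally consider the rows `N - ζ S - (1 - ζ) κ (W + E)`, with `ζ = - s²`, `κ = s / (1 + s²)` at our point. (1) For `|ζ| < 1` and real `κ ≠ 0` there is no nonzero
solution: an energy of the faces along the edges cannot decrease all the way round. (2) For real `ζ` in `[0, 1)` and `κ` in a rectangle of polynomial width around the real interval there is none
either: with the index `i` of the faces and `h_i = σ^i + σ^(-i)` the Wronskians `h_l v_r - h_r v_l` of the edges are averaged at every crossing, and their mean difference over the edges which
are alive at one time (one for each label of the cut diagram) would strictly decrease; a perturbation of relative size `1 / poly` does no harm. (3) The maximum principle for the inverse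
determinant on a half disc of parameters joins (1) and (2): `∇` has no zeros near the positive real axis, with a distance polynomial in the number of Seifert circles. (4) All zeros are
`O(s)`, by the energy and sums along the Seifert circles; lower bounds for `∇` on the positive axis come from (2) again and upper bounds everywhere from a Hermitian form of the alive
edges, of determinant growth at most `σ(z)` per crossing; all constants are polynomial in the number of Seifert circles. (5) A local limit theorem for polynomials with
such zeros and bounds, with explicit constants, gives log-concavity of all coefficients. For at most four Seifert circles the face values along the one circle with crossings on both sides form a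
colouring of a braid word on at most four strands, or the diagram is a closed braid on four strands, and word dependent Hermitian norms show that all zeros satisfy `3 (Re z)² ≤ (Im z)²`.
-/

set_option autoImplicit false

namespace Pool.Agent.Results.MP_ea8a26_gt.PolynomialSeifert

open Polynomial Pool.Agent.Helper85.Exp Pool.Agent.Helper60.EV2 Pool.Agent.Helper43.Pln

/-- **Main theorem.** On the diagrams of every connected shadow in the sphere there is exactly one Conway polynomial. The inequality of Q1 holds, for all integers `k`, for the
positive diagram on every connected shadow in the sphere with `s` Seifert circles and at least `N(s)` crossings, where `N(s) = 0` for `s ≤ 4` and `N(s) = 10 ^ 200 * s ^ 52` for `s ≥ 5`. In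
particular, for every `s`, only finitely many shadows (on `m` passages, numbered from `0` to `m - 1`) with at most `s` Seifert circles violate it. -/
theorem result :
    (∀ (P : Type) [Fintype P] (G : Sh P), Plane G → ∃! nab : Dg G → ℤ[X], Cs nab) ∧
    (∀ (P : Type) [Fintype P] (G : Sh P), Plane G → (if circles G ≤ 4 then 0 else 10 ^ 200 * circles G ^ 52) ≤ crossings G →
      ∀ nab : Dg G → ℤ[X], Cs nab → LogConcave G nab) ∧
    ∀ s : ℕ, {x : Σ m : ℕ, Sh (Fin m) | Plane x.2 ∧ circles x.2 ≤ s ∧
      ∃ nab : Dg x.2 → ℤ[X], Cs nab ∧ ¬ LogConcave x.2 nab}.Finite := by
  have h : ∀ (P : Type) [Fintype P] (G : Sh P), Plane G → (if circles G ≤ 4 then 0 else 10 ^ 200 * circles G ^ 52) ≤ crossings G →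
      ∀ nab : Dg G → ℤ[X], Cs nab → LogConcave G nab := fun P _ G hG hc nab hn => by
    by_cases h4 : circles G ≤ 4
    · exact (Pool.Agent.Helper60.S4.main hG h4 hn).1
    · rw [if_neg h4] at hc
      exact Pool.Agent.Helper43.GD.expl_b P G hG nab hn hc
  refine ⟨fun P _ G h => ?_, h, fun s => (finite_few (10 ^ 200 * s ^ 52)).subset ?_⟩
  · have := nonempty_of h
    exact Pool.Agent.Helper60.PD.exists_unique_nab h.conn h.cross h.genus
  · rintro ⟨m, G⟩ ⟨hG, hs, nab, hn, hlc⟩
    refine ⟨hG.cross, ?_⟩
    by_contra hm
    refine hlc (h _ G hG ?_ nab hn)
    split_ifs
    · exact Nat.zero_le _
    · exact (Nat.mul_le_mul_left _ (Nat.pow_le_pow_left hs 52)).trans (not_lt.1 hm)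

end Pool.Agent.Results.MP_ea8a26_gt.PolynomialSeifert
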